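import Mathlib
import Pool.Agent.H68.RFDefs
import Pool.Agent.H68.Lamp2

set_option autoImplicit false

namespace Pool.Agent.Results.MP_f3c5e4_al.NotPower

open Pool.Agent.H68.RF

theorem result : ∃ (G : Type) (_ : Group G) (S : Finset G), Subgroup.closure (S : Set G) = ⊤ ∧
    (∀ g : G, g ≠ 1 → ∃ N : Subgroup G, N.Normal ∧ N.FiniteIndex ∧ g ∉ N) ∧
    (∀ H : Subgroup G, H.FiniteIndex → ¬ Group.IsNilpotent H) ∧
    (∃ C : ℕ, 0 < C ∧ ∀ n : ℕ, rfGrowth S n ≤ C * n ^ C) ∧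
    ∀ α : ℝ, 0 < α →
      ¬ (Prec (fun n => (rfGrowth S n : ℝ)) (fun n => (n : ℝ) ^ α) ∧
         Prec (fun n => (n : ℝ) ^ α) (fun n => (rfGrowth S n : ℝ))) := by
  refine ⟨L, inferInstance, LS, LS_gen, fun g hg => ?_, fun H _ => not_vn H,
    ⟨64, by norm_num, fun n => ?_⟩, ?_⟩
  · obtain ⟨N, a, b, c, -⟩ := det_L _ g hg le_rfl
    exact ⟨N, a, b, c⟩
  · rcases Nat.eq_zero_or_pos n with rfl | hn
    · refine (rfGrowth_le (D := 0) fun g a b => absurd ?_ a).trans (Nat.zero_le _)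
      exact len_ind LS_gen (fun n g => n = 0 → g = 1) (fun _ => rfl) (by simp) 0 g b rfl
    · refine (rfGrowth_le (det_L n)).trans ?_
      have := Nat.pow_le_pow_right hn (show 2 ≤ 64 by norm_num)
      nlinarith
  · rintro α hα ⟨⟨C, hC, h1⟩, ⟨C', hC', h2⟩⟩
    rcases le_or_gt 2 α with h | h
    · refine not_quad C' hC' fun n => ?_
      rcases Nat.eq_zero_or_pos n with rfl | hn
      · simp
      · have a1 : (n : ℝ) ^ (2 : ℝ) ≤ (n : ℝ) ^ α :=
          Real.rpow_le_rpow_of_exponent_le (by exact_mod_cast hn) h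
        have a2 := a1.trans (h2 n)
        beta_reduce at a2
        exact_mod_cast a2
    · obtain ⟨k, hk⟩ := exists_nat_gt ((3 * α + 1) / (2 - α))
      rw [div_lt_iff₀ (by linarith)] at hk
      have hk0 : 0 < k := by
        rcases Nat.eq_zero_or_pos k with rfl | h0
        · simp at hk; linarith
        · exact h0
      obtain ⟨C1, h3⟩ := small_n k hk0
      obtain ⟨i, hi⟩ : ∃ i, i = C * (C * C1 + 1) ^ 2 := ⟨_, rfl⟩
      obtain ⟨n, a1, a2⟩ := h3 i
      have b1 : ((C * n : ℕ) : ℝ) ≤ (C * C1 + 1 : ℕ) * (2 : ℝ) ^ ((k + 3) * i) := by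
        have : C * n ≤ (C * C1 + 1) * 2 ^ ((k + 3) * i) :=
          (Nat.mul_le_mul_left C a1).trans (by rw [← mul_assoc]; exact Nat.mul_le_mul_right _ (by omega))
        exact_mod_cast this
      have b2 : (((C * C1 + 1 : ℕ) : ℝ)) ^ α ≤ ((C * C1 + 1 : ℕ) : ℝ) ^ (2 : ℝ) :=
        Real.rpow_le_rpow_of_exponent_le (by exact_mod_cast Nat.le_add_left 1 _) h.le
      have b3 : ((2 : ℝ) ^ ((k + 3) * i)) ^ α * 2 ^ i ≤ 2 ^ (2 * (k * i)) := by
        rw [← Real.rpow_natCast, ← Real.rpow_natCast, ← Real.rpow_natCast,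
          ← Real.rpow_mul (by norm_num), ← Real.rpow_add (by norm_num)]
        refine Real.rpow_le_rpow_of_exponent_le (by norm_num) ?_
        push_cast
        have : (0 : ℝ) ≤ i := by positivity
        nlinarith
      have b4 := Real.rpow_le_rpow (by positivity) b1 hα.le
      rw [Real.mul_rpow (by positivity) (by positivity)] at b4
      have b5 : (2 : ℝ) ^ (2 * (k * i)) < rfGrowth LS n := by exact_mod_cast a2
      have b6 := h1 n
      beta_reduce at b6
      have b7 : (i : ℝ) < 2 ^ i := by exact_mod_cast Nat.lt_two_pow_self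
      have b8 : (i : ℝ) = C * ((C * C1 + 1 : ℕ) : ℝ) ^ (2 : ℝ) := by rw [hi]; norm_cast
      have p : 0 < ((2 : ℝ) ^ ((k + 3) * i)) ^ α := by positivity
      have b9 : (C : ℝ) * ((C * n : ℕ) : ℝ) ^ α ≤ i * ((2 : ℝ) ^ ((k + 3) * i)) ^ α := by
        nth_rw 1 [b8]
        rw [mul_assoc]
        exact mul_le_mul_of_nonneg_left (b4.trans (mul_le_mul_of_nonneg_right b2 p.le))
          (by positivity)
      nlinarith

end Pool.Agent.Results.MP_f3c5e4_al.NotPower
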